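import Mathlib
import Pool.Agent.H815R3.GSH.Solv

/-!
# Heights of group languages: an elementary abelian quotient on top

`HS n X` says that the language `X` has generalized star height at most `n`
(`Pool/Agent/H936R2/SH/Basic.lean`).
-/

set_option autoImplicit false

namespace Pool.Agent.Results.MP_1ffbee_lc.ElementaryAbelianTop

open Pool.Agent.H936R2.SH

/-- Let `G` be a finite group with a normal subgroup `N` of derived length at most `j + 1` such that
`G ⧸ N` is an elementary abelian `p`-group.  Every language over a finite alphabet which is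
recognised by `G` has generalized star height at most `j + 1`. -/
theorem result {α : Type} [Finite α] (p : ℕ) [Fact p.Prime] (j : ℕ) (G : Type) [Group G] [Finite G]
    (N : Subgroup G) [N.Normal] (hd : derivedSeries N (j + 1) = ⊥)
    (hc : ∀ x y : G ⧸ N, x * y = y * x) (hp : ∀ x : G ⧸ N, x ^ p = 1) (f : α → G) (S : Set G) :
    HS (j + 1) {w : List α | (w.map f).prod ∈ S} := by
  refine Pool.Agent.H815R3.GSH.solv p j G N hd ?_ ?_ f S
  · intro g h
    rw [← QuotientGroup.eq_one_iff, QuotientGroup.mk_mul, QuotientGroup.mk_mul,
      QuotientGroup.mk_mul, QuotientGroup.mk_inv, QuotientGroup.mk_inv, hc (g : G ⧸ N) h]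
    group
  · intro g
    rw [← QuotientGroup.eq_one_iff, QuotientGroup.mk_pow]
    exact hp _

end Pool.Agent.Results.MP_1ffbee_lc.ElementaryAbelianTop
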