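import Mathlib
import Pool.Agent.TH733.GSH.S3d

/-!
# Heights of group languages: a quotient acting on three points on top

`HS n X` says that the language `X` has generalized star height at most `n`
(`Pool/Agent/H936R2/SH/Basic.lean`).
-/

set_option autoImplicit false

namespace Pool.Agent.Results.MP_1ffbee_lc.SymmetricThreeTop

open Pool.Agent.H936R2.SH

/-- Let `G` be a finite group with a normal subgroup `N` of derived length at most `j + 1` and let
`ψ` be an embedding of `G ⧸ N` into the symmetric group on three points.  Let `f : α → G` be a map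
from a finite alphabet such that either some point is moved by all letters, or for two different
points every letter acts as the identity or moves both.  Then every language `{w | f w ∈ S}` has
generalized star height at most `j + 1`. -/
theorem result {α : Type} [Finite α] (j : ℕ) (G : Type) [Group G] [Finite G] (N : Subgroup G)
    [N.Normal] (hd : derivedSeries N (j + 1) = ⊥) (ψ : G ⧸ N →* Equiv.Perm (Fin 3))
    (hψ : Function.Injective ψ) (f : α → G)
    (hf : (∃ b : Fin 3, ∀ a : α, ψ ((f a : G) : G ⧸ N) b ≠ b) ∨
      ∃ b b' : Fin 3, b ≠ b' ∧ ∀ a : α, ψ ((f a : G) : G ⧸ N) = 1 ∨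
        (ψ ((f a : G) : G ⧸ N) b ≠ b ∧ ψ ((f a : G) : G ⧸ N) b' ≠ b')) (S : Set G) :
    HS (j + 1) {w : List α | (w.map f).prod ∈ S} :=
  Pool.Agent.TH733.GSH.S3.solv_S3 j G N hd f ψ hψ hf S

end Pool.Agent.Results.MP_1ffbee_lc.SymmetricThreeTop
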